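import Pool.Agent.P8H97.FE.Stm3

/-! Project FE, package AP (helper44): a lower bound on average for the number of three term progressions of primes -/

set_option autoImplicit false

namespace Pool.Agent.P8H44.FE

open Finset Filter Topology
open Pool.Agent.P8H97.FE
open Pool.Agent.H560R3.GB (g HL sing C₂)

/-- the factors of the twin prime constant -/
noncomputable def fc (p : ℕ) : ℝ := 1 - 1 / ((p : ℝ) - 1) ^ 2

lemma fc_pos {p : ℕ} (hp : 3 ≤ p) : 0 < fc p := by
  have h3 : (3 : ℝ) ≤ p := by exact_mod_cast hp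
  have h4 : (1 : ℝ) < ((p : ℝ) - 1) ^ 2 := by nlinarith
  have h5 : 1 / ((p : ℝ) - 1) ^ 2 < 1 := by
    rw [div_lt_one (by linarith)]; exact h4
  unfold fc
  linarith

lemma fc_le (p : ℕ) : fc p ≤ 1 := by
  unfold fc
  have h6 : 0 ≤ 1 / ((p : ℝ) - 1) ^ 2 := by positivity
  linarith

/-- the partial products of the twin prime constant -/
noncomputable def cp (z : ℕ) : ℝ := ∏ p ∈ (Icc 3 z).filter Nat.Prime, fc p

lemma cp_pos (z : ℕ) : 0 < cp z := prod_pos fun p hp => by
  rw [mem_filter, mem_Icc] at hp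
  exact fc_pos hp.1.1

lemma all_prod (n : ℕ) : ∏ p ∈ Icc 3 (n + 2), fc p = ((n : ℝ) + 2) / (2 * (n + 1)) := by
  induction n with
  | zero => simp
  | succ n ih =>
    have h1 : Icc 3 (n + 1 + 2) = insert (n + 3) (Icc 3 (n + 2)) := by
      ext x; simp only [mem_Icc, mem_insert]; omega
    rw [h1, prod_insert (by simp), ih]
    unfold fc
    have h2 : (0 : ℝ) ≤ n := Nat.cast_nonneg n
    push_cast
    have h3 : ((n : ℝ) + 3 - 1) ≠ 0 := by linarith
    have h4 : ((n : ℝ) + 3 - 1) = n + 2 := by ring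
    rw [h4]
    have h5 : ((n : ℝ) + 2) ≠ 0 := by linarith
    have h6 : ((n : ℝ) + 1) ≠ 0 := by linarith
    have h7 : ((n : ℝ) + 1 + 1) ≠ 0 := by linarith
    field_simp
    ring

lemma cp_ge (z : ℕ) : 1 / 2 ≤ cp z := by
  rcases Nat.lt_or_ge z 2 with hz | hz
  · have : cp z = 1 := by
      unfold cp
      rw [Finset.Icc_eq_empty (by omega)]
      simp
    rw [this]; norm_num
  · obtain ⟨n, rfl⟩ : ∃ n, z = n + 2 := ⟨z - 2, by omega⟩
    have h1 := all_prod n
    have h2 := Finset.prod_filter_mul_prod_filter_not (Icc 3 (n + 2)) Nat.Prime fc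
    have h3 : ∏ p ∈ (Icc 3 (n + 2)).filter (fun p => ¬ p.Prime), fc p ≤ 1 := by
      refine prod_le_one (fun p hp => ?_) (fun p hp => fc_le p)
      rw [mem_filter, mem_Icc] at hp
      exact (fc_pos hp.1.1).le
    have h4 := cp_pos (n + 2)
    have h5 : cp (n + 2) * ∏ p ∈ (Icc 3 (n + 2)).filter (fun p => ¬ p.Prime), fc p =
        ((n : ℝ) + 2) / (2 * (n + 1)) := by
      rw [← h1, ← h2]; rfl
    have h6 : 1 / 2 ≤ ((n : ℝ) + 2) / (2 * (n + 1)) := by
      have h7 : (0 : ℝ) ≤ n := Nat.cast_nonneg n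
      rw [div_le_div_iff₀ (by norm_num) (by linarith)]
      linarith
    nlinarith

lemma C2_half : 1 / 2 ≤ C₂ := le_ciInf cp_ge

lemma one_le_sing (n : ℕ) : 1 ≤ sing n := by
  unfold sing
  have h1 : 1 ≤ ∏ p ∈ n.primeFactors.filter (fun p => 2 < p), ((p : ℝ) - 1) / ((p : ℝ) - 2) := by
    have h2 : ∏ _p ∈ n.primeFactors.filter (fun p => 2 < p), (1 : ℝ) ≤
        ∏ p ∈ n.primeFactors.filter (fun p => 2 < p), ((p : ℝ) - 1) / ((p : ℝ) - 2) := by
      refine prod_le_prod (fun _ _ => zero_le_one) fun p hp => ?_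
      have h3 : (2 : ℝ) < p := by exact_mod_cast (mem_filter.mp hp).2
      rw [le_div_iff₀ (by linarith)]
      linarith
    rwa [prod_const_one] at h2
  have h3 := C2_half
  nlinarith

/-- the prime numbers between `N / 8` and `N` -/
noncomputable def B1 (N : ℕ) : Finset ℕ := (Ioc 0 N).filter (fun q => q.Prime ∧ (N : ℝ) / 8 < q)

lemma count_primes : ∀ᶠ N : ℕ in atTop, (N : ℝ) / 4 ≤ ((B1 N).card : ℝ) * Real.log N := by
  have e1 : (fun x : ℝ => √x * Real.log x) =o[atTop] (fun x : ℝ => x) := by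
    have h1 : (fun x : ℝ => √x * Real.log x) =o[atTop] (fun x : ℝ => √x * x ^ (1 / 2 : ℝ)) :=
      (Asymptotics.isBigO_refl _ _).mul_isLittleO (isLittleO_log_rpow_atTop (by norm_num))
    refine h1.congr' (Filter.EventuallyEq.refl _ _) ?_
    filter_upwards [eventually_ge_atTop (0 : ℝ)] with x hx
    rw [← Real.sqrt_eq_rpow, Real.mul_self_sqrt hx]
  have e2 : ∀ᶠ N : ℕ in atTop, √(N : ℝ) * Real.log N ≤ 1 / 100 * N := by
    have h1 := (e1.def (show (0 : ℝ) < 1 / 100 by norm_num))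
    have h2 := tendsto_natCast_atTop_atTop.eventually h1
    filter_upwards [h2, eventually_ge_atTop 1] with N hN hN1
    rw [Real.norm_of_nonneg (Nat.cast_nonneg N)] at hN
    exact (le_abs_self _).trans hN
  filter_upwards [e2, eventually_ge_atTop 1000] with N hN hN1
  have hN1r : (1000 : ℝ) ≤ N := by exact_mod_cast hN1
  have h1 := Chebyshev.theta_ge N
  have h2 : Chebyshev.theta ((N : ℝ) / 8) ≤ Real.log 4 * (N / 8) :=
    Chebyshev.theta_le_log4_mul_x (by positivity)
  have h3 : Chebyshev.theta (N : ℝ) ≤ Chebyshev.theta ((N : ℝ) / 8) +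
      ((B1 N).card : ℝ) * Real.log N := by
    have h4 : Chebyshev.theta (N : ℝ) = ∑ p ∈ (Ioc 0 N).filter Nat.Prime, Real.log p := by
      unfold Chebyshev.theta
      rw [Nat.floor_natCast]
    rw [h4, ← sum_filter_add_sum_filter_not _ (fun q : ℕ => (N : ℝ) / 8 < q), add_comm]
    refine add_le_add ?_ ?_
    · unfold Chebyshev.theta
      refine sum_le_sum_of_subset_of_nonneg ?_ ?_
      · intro q hq
        simp only [mem_filter, mem_Ioc, not_lt] at hq ⊢
        exact ⟨⟨hq.1.1.1, Nat.le_floor hq.2⟩, hq.1.2⟩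
      · intro q hq _
        simp only [mem_filter, mem_Ioc] at hq
        exact Real.log_nonneg (by exact_mod_cast hq.1.1)
    · have h5 : ((Ioc 0 N).filter Nat.Prime).filter (fun q : ℕ => (N : ℝ) / 8 < q) = B1 N := by
        rw [filter_filter]
        rfl
      rw [h5, ← nsmul_eq_mul]
      refine sum_le_card_nsmul _ _ _ fun q hq => ?_
      simp only [B1, mem_filter, mem_Ioc] at hq
      exact Real.log_le_log (by exact_mod_cast hq.1.1) (by exact_mod_cast hq.1.2)
  have h5 : Real.log 4 = 2 * Real.log 2 := by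
    rw [show (4 : ℝ) = 2 ^ 2 by norm_num, Real.log_pow]
    norm_num
  have h6 := Real.log_two_gt_d9
  have h7 : Real.log ((N : ℝ) + 1) ≤ 1 / 100 * N + 7 := by
    have h8 : Real.log (((N : ℝ) + 1) / 100) ≤ ((N : ℝ) + 1) / 100 - 1 :=
      Real.log_le_sub_one_of_pos (by positivity)
    have h9 : Real.log ((N : ℝ) + 1) = Real.log (((N : ℝ) + 1) / 100) + Real.log 100 := by
      rw [← Real.log_mul (by positivity) (by norm_num)]
      congr 1
      ring
    have h10 : Real.log 100 ≤ 7 * Real.log 2 := by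
      rw [show (7 : ℝ) * Real.log 2 = Real.log (2 ^ 7) by rw [Real.log_pow]; norm_num]
      exact Real.log_le_log (by norm_num) (by norm_num)
    have h11 := Real.log_two_lt_d9
    linarith
  nlinarith

/-- the smaller primes in the representations of `2 q` as a sum of two primes -/
def R (N q : ℕ) : Finset ℕ := (Icc 1 N).filter (fun m => m < q ∧ m.Prime ∧ (2 * q - m).Prime)

lemma g_le {N q : ℕ} (hqN : q ≤ N) : g (2 * q) ≤ 2 * (R N q).card + 1 := by
  have h1 : (antidiagonal (2 * q)).filter (fun p : ℕ × ℕ => p.1.Prime ∧ p.2.Prime) ⊆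
      (R N q).image (fun m => (m, 2 * q - m)) ∪ (R N q).image (fun m => (2 * q - m, m)) ∪
        {(q, q)} := by
    rintro ⟨a, b⟩ h
    rw [mem_filter, Finset.HasAntidiagonal.mem_antidiagonal] at h
    obtain ⟨hab, ha, hb⟩ := h
    change a + b = 2 * q at hab
    change a.Prime at ha
    change b.Prime at hb
    rw [mem_union, mem_union, mem_image, mem_image, mem_singleton]
    rcases lt_trichotomy a q with h | h | h
    · left; left
      refine ⟨a, ?_, ?_⟩
      · refine mem_filter.mpr ⟨mem_Icc.mpr ⟨ha.one_lt.le, by omega⟩, h, ha, ?_⟩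
        rwa [show 2 * q - a = b by omega]
      · rw [show 2 * q - a = b by omega]
    · right
      rw [Prod.mk.injEq]
      omega
    · left; right
      refine ⟨b, ?_, ?_⟩
      · refine mem_filter.mpr ⟨mem_Icc.mpr ⟨hb.one_lt.le, by omega⟩, by omega, hb, ?_⟩
        rwa [show 2 * q - b = a by omega]
      · rw [show 2 * q - b = a by omega]
  have h2 := card_le_card h1
  have h3 := card_union_le ((R N q).image (fun m => (m, 2 * q - m)) ∪
    (R N q).image (fun m => (2 * q - m, m))) {(q, q)}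
  have h4 := card_union_le ((R N q).image (fun m => (m, 2 * q - m)))
    ((R N q).image (fun m => (2 * q - m, m)))
  have h5 : ((R N q).image (fun m => (m, 2 * q - m))).card ≤ (R N q).card := card_image_le
  have h6 : ((R N q).image (fun m => (2 * q - m, m))).card ≤ (R N q).card := card_image_le
  rw [card_singleton] at h3
  change ((antidiagonal (2 * q)).filter (fun p : ℕ × ℕ => p.1.Prime ∧ p.2.Prime)).card ≤ _
  omega

lemma sum_R_le {N : ℕ} {A : Finset ℕ} (hA : ∀ q ∈ A, q.Prime ∧ q ≤ N) :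
    ∑ q ∈ A, (R N q).card ≤ ∑ d ∈ Icc 1 N, tri N d := by
  unfold tri
  rw [← card_sigma, ← card_sigma]
  refine card_le_card_of_injOn (fun x : (_ : ℕ) × ℕ => (⟨x.1 - x.2, x.2⟩ : (_ : ℕ) × ℕ)) ?_ ?_
  · rintro ⟨q, m⟩ hx
    rw [mem_coe, mem_sigma] at hx
    obtain ⟨hq, hm⟩ := hx
    obtain ⟨hp, hqN⟩ := hA q hq
    obtain ⟨hm1, hm2, hm3, hm4⟩ := mem_filter.mp hm
    rw [mem_Icc] at hm1
    change m < q at hm2
    rw [mem_coe, mem_sigma]
    refine ⟨mem_Icc.mpr ⟨by change 1 ≤ q - m; omega, by change q - m ≤ N; omega⟩,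
      mem_filter.mpr ⟨mem_Icc.mpr hm1, hm3, ?_, ?_⟩⟩
    · change (m + (q - m)).Prime
      rwa [show m + (q - m) = q by omega]
    · change (m + 2 * (q - m)).Prime
      rwa [show m + 2 * (q - m) = 2 * q - m by omega]
  · rintro ⟨q, m⟩ hx ⟨q', m'⟩ hx' h
    rw [mem_coe, mem_sigma] at hx hx'
    have h1 := (mem_filter.mp hx.2).2.1
    have h2 := (mem_filter.mp hx'.2).2.1
    change m < q at h1
    change m' < q' at h2
    simp only [Sigma.mk.injEq, heq_eq_eq] at h ⊢
    omega

theorem ap : S_FAM → S_AP := by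
  rintro ⟨N₀, hF⟩
  refine ⟨1 / 1024, by norm_num, ?_⟩
  have e1 : ∀ᶠ N : ℕ in atTop, (8 : ℝ) ≤ Real.log N :=
    (Real.tendsto_log_atTop.comp tendsto_natCast_atTop_atTop).eventually_ge_atTop 8
  have e2 : ∀ᶠ N : ℕ in atTop, 64 * Real.log N ^ 2 ≤ N := by
    have h1 := (isLittleO_log_rpow_atTop (show (0 : ℝ) < 1 / 2 by norm_num)).def
      (show (0 : ℝ) < 1 / 8 by norm_num)
    have h2 := tendsto_natCast_atTop_atTop.eventually h1
    filter_upwards [h2, eventually_ge_atTop 1] with N hN hN1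
    have h3 : (0 : ℝ) ≤ N := Nat.cast_nonneg N
    have h4 : 0 ≤ Real.log (N : ℝ) := Real.log_nonneg (by exact_mod_cast hN1)
    rw [Real.norm_of_nonneg h4, Real.norm_of_nonneg (Real.rpow_nonneg h3 _),
      ← Real.sqrt_eq_rpow] at hN
    have h5 : Real.log (N : ℝ) ^ 2 ≤ (1 / 8 * √(N : ℝ)) ^ 2 := pow_le_pow_left₀ h4 hN 2
    rw [mul_pow, Real.sq_sqrt h3] at h5
    linarith
  filter_upwards [count_primes, eventually_ge_atTop N₀, e1, e2, eventually_ge_atTop 2]
    with N hN hN0 hL hL2 hN2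
  have hN2r : (2 : ℝ) ≤ N := by exact_mod_cast hN2
  have hL0 : 0 < Real.log (N : ℝ) := by linarith
  classical
  set S := (B1 N).filter (fun q => (g (2 * q) : ℝ) < (1 / 2) * HL (2 * q)) with hS
  set A := (B1 N).filter (fun q => ¬ (g (2 * q) : ℝ) < (1 / 2) * HL (2 * q)) with hA
  have hB : ∀ q ∈ B1 N, q.Prime ∧ 0 < q ∧ q ≤ N ∧ (N : ℝ) / 8 < q := by
    intro q hq
    simp only [B1, mem_filter, mem_Ioc] at hq
    exact ⟨hq.2.1, hq.1.1, hq.1.2, hq.2.2⟩
  have h1 : (S.card : ℝ) ≤ N / Real.log N ^ 2 := by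
    refine hF N hN0 S ?_ ?_
    · intro q hq
      have := hB q (mem_filter.mp hq).1
      exact mem_Icc.mpr ⟨this.2.1, this.2.2.1⟩
    · intro q hq
      exact (mem_filter.mp hq).2
  have h2 : ((B1 N).card : ℝ) = S.card + A.card := by
    rw [hS, hA]
    exact_mod_cast (card_filter_add_card_filter_not (s := B1 N)
      (fun q => (g (2 * q) : ℝ) < (1 / 2) * HL (2 * q))).symm
  have h3 : (N : ℝ) / 8 ≤ A.card * Real.log N := by
    have h4 : (S.card : ℝ) * Real.log N ≤ N / 8 := by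
      calc (S.card : ℝ) * Real.log N ≤ N / Real.log N ^ 2 * Real.log N :=
            mul_le_mul_of_nonneg_right h1 hL0.le
        _ = N / Real.log N := by field_simp
        _ ≤ N / 8 := by
            apply div_le_div_of_nonneg_left (by linarith) (by norm_num) hL
    rw [h2] at hN
    nlinarith
  have h5 : ∀ q ∈ A, (N : ℝ) / (128 * Real.log N ^ 2) ≤ (R N q).card := by
    intro q hq
    obtain ⟨hq1, hq2⟩ := mem_filter.mp hq
    obtain ⟨hp, hq0, hqN, hq8⟩ := hB q hq1
    have hqNr : (q : ℝ) ≤ N := by exact_mod_cast hqN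
    have hq2r : (2 : ℝ) ≤ q := by exact_mod_cast hp.two_le
    rw [not_lt] at hq2
    have h6 : (g (2 * q) : ℝ) ≤ 2 * (R N q).card + 1 := by exact_mod_cast g_le hqN
    have h7 : (N : ℝ) / (32 * Real.log N ^ 2) ≤ 1 / 2 * HL (2 * q) := by
      unfold HL
      have h8 := one_le_sing (2 * q)
      have h9 : Real.log ((2 * q : ℕ) : ℝ) ≤ 2 * Real.log N := by
        have h10 : Real.log ((2 * q : ℕ) : ℝ) ≤ Real.log ((N : ℝ) * N) := by
          refine Real.log_le_log (by push_cast; linarith) ?_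
          push_cast
          nlinarith
        rw [Real.log_mul (by linarith) (by linarith)] at h10
        linarith
      have h10 : 0 < Real.log ((2 * q : ℕ) : ℝ) := Real.log_pos (by push_cast; linarith)
      have h11 : (N : ℝ) / (16 * Real.log N ^ 2) ≤ ((2 * q : ℕ) : ℝ) / Real.log ((2 * q : ℕ) : ℝ) ^ 2 := by
        rw [div_le_div_iff₀ (by positivity) (by positivity)]
        have h12 : Real.log ((2 * q : ℕ) : ℝ) ^ 2 ≤ (2 * Real.log N) ^ 2 :=
          pow_le_pow_left₀ h10.le h9 2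
        have h13 : (N : ℝ) ≤ 4 * ((2 * q : ℕ) : ℝ) := by
          push_cast
          linarith
        calc (N : ℝ) * Real.log ((2 * q : ℕ) : ℝ) ^ 2 ≤
              (4 * ((2 * q : ℕ) : ℝ)) * (2 * Real.log N) ^ 2 :=
              mul_le_mul h13 h12 (by positivity) (by positivity)
          _ = ((2 * q : ℕ) : ℝ) * (16 * Real.log N ^ 2) := by ring
      have h12 : 0 ≤ ((2 * q : ℕ) : ℝ) / Real.log ((2 * q : ℕ) : ℝ) ^ 2 := by positivity
      have h13 : ((2 * q : ℕ) : ℝ) / Real.log ((2 * q : ℕ) : ℝ) ^ 2 ≤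
          sing (2 * q) * (((2 * q : ℕ) : ℝ) / Real.log ((2 * q : ℕ) : ℝ) ^ 2) := by
        nlinarith
      have h14 : (N : ℝ) / (32 * Real.log N ^ 2) = 1 / 2 * (N / (16 * Real.log N ^ 2)) := by
        field_simp
        norm_num
      rw [h14]
      linarith
    have h15 : (1 : ℝ) / 2 ≤ N / (128 * Real.log N ^ 2) := by
      rw [div_le_div_iff₀ (by norm_num) (by positivity)]
      linarith
    have h16 : (N : ℝ) / (32 * Real.log N ^ 2) = 4 * (N / (128 * Real.log N ^ 2)) := by
      field_simp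
      norm_num
    rw [h16] at h7
    linarith
  have h6 : (A.card : ℝ) * (N / (128 * Real.log N ^ 2)) ≤ ∑ d ∈ Icc 1 N, (tri N d : ℝ) := by
    have h7 := sum_R_le (N := N) (A := A) fun q hq => by
      have := hB q (mem_filter.mp hq).1
      exact ⟨this.1, this.2.2.1⟩
    have h8 : (∑ q ∈ A, ((R N q).card : ℝ)) ≤ ∑ d ∈ Icc 1 N, (tri N d : ℝ) := by exact_mod_cast h7
    refine le_trans ?_ h8
    rw [← nsmul_eq_mul]
    exact card_nsmul_le_sum _ _ _ h5
  refine le_trans ?_ h6
  have h7 : (N : ℝ) / (8 * Real.log N) ≤ A.card := by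
    rw [div_le_iff₀ (by positivity)]
    linarith
  calc 1 / 1024 * ((N : ℝ) * (N / Real.log N ^ 3)) =
        (N / (8 * Real.log N)) * (N / (128 * Real.log N ^ 2)) := by
        field_simp
        norm_num
    _ ≤ A.card * (N / (128 * Real.log N ^ 2)) :=
        mul_le_mul_of_nonneg_right h7 (by positivity)

end Pool.Agent.P8H44.FE
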